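import Pool.Agent.H515.RG.Gen

/-!
# Regular primes and the ambiguous classes in extensions of degree `p` of `ℚ(ζ_p)`

Let `p` be an odd prime and `K = ℚ(ζ_p)`. For each prime `l ≡ 1 mod p` let `M` be the compositum of
`K` with the subfield of degree `p` of `ℚ(ζ_l)`. The number of the ideal classes of `M` fixed by
`Gal(M/K)` has `p`-adic valuation `v_p(h_p) + (p - 3) / 2 + j`, `0 ≤ j ≤ (p - 1) / 2`, and `j`
follows the binomial law with parameters `(p - 1) / 2` and `1 / p` when `l` runs through the primes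
`≡ 1 mod p`. In particular `p` is regular if and only if the valuation `(p - 3) / 2` occurs for one
prime `l`.
-/

set_option autoImplicit false

namespace Pool.Agent.Results.MP_a3a416_nt.AmbiguousClassLaw

open NumberField Filter Topology

/-- the field of the `p`-th roots of unity in `ℂ` -/
noncomputable def Cyc (p : ℕ) : IntermediateField ℚ ℂ := IntermediateField.adjoin ℚ {z : ℂ | z ^ p = 1}

/-- `M` is the compositum of `ℚ(ζ_p)` and the subfield of degree `p` of `ℚ(ζ_l)` -/
def IsLayer (p l : ℕ) (M : IntermediateField ℚ ℂ) : Prop :=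
  ∃ k : IntermediateField ℚ ℂ, k ≤ Cyc l ∧ Module.finrank ℚ k = p ∧ M = Cyc p ⊔ k

/-- the ideal classes of `M` which are fixed by all automorphisms of `M` over `ℚ(ζ_p)` -/
def Fixed (p : ℕ) (M : IntermediateField ℚ ℂ) [NumberField M] : Set (ClassGroup (𝓞 M)) :=
  {c | ∀ g : M →+* M, (∀ x : M, (x : ℂ) ∈ Cyc p → g x = x) →
    ∀ I J : nonZeroDivisors (Ideal (𝓞 M)),
      (J : Ideal (𝓞 M)) = Ideal.map (RingOfIntegers.mapRingHom g) I →
      ClassGroup.mk0 I = c → ClassGroup.mk0 J = c}

/-- the class number of the field of the `p`-th roots of unity -/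
noncomputable def cl (p : ℕ) [NeZero p] : ℕ := classNumber (CyclotomicField p ℚ)

/-- there is a field `M` belonging to `l` such that the number of the fixed classes is exactly
divisible by `p ^ v` -/
def Val (p l v : ℕ) : Prop :=
  ∃ (M : IntermediateField ℚ ℂ) (_ : NumberField M), IsLayer p l M ∧
    padicValNat p (Nat.card (Fixed p M)) = v

/-- the set of the primes `l` with the property `P` has natural density `δ` among all primes -/
def HasDensity (P : ℕ → Prop) (δ : ℝ) : Prop :=
  Tendsto (fun N : ℕ => (Nat.card {l : ℕ // l.Prime ∧ l ≤ N ∧ P l} : ℝ) /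
    (Nat.primeCounting N : ℝ)) atTop (𝓝 δ)

/-- `p` is a regular prime -/
def Regular (p : ℕ) : Prop :=
  ∃ hp : p.Prime, haveI : NeZero p := ⟨hp.ne_zero⟩; p.Coprime (cl p)

theorem cl_eq {p : ℕ} [NeZero p] [NumberField (Pool.Agent.H515.CH.cyc p)] :
    classNumber (Pool.Agent.H515.CH.cyc p) = cl p := by
  have hce : IsCyclotomicExtension {p} ℚ (Pool.Agent.H515.CH.cyc p) :=
    Pool.Agent.H515.CH.cyc_ext (NeZero.ne p)
  have hC : @IsCyclotomicExtension {p} ℚ (CyclotomicField p ℚ) _ _ DivisionRing.toRatAlgebra := by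
    rw [Subsingleton.elim (DivisionRing.toRatAlgebra : Algebra ℚ (CyclotomicField p ℚ))
      (CyclotomicField.algebra p ℚ)]
    exact CyclotomicField.isCyclotomicExtension p ℚ
  let e : Pool.Agent.H515.CH.cyc p ≃ₐ[ℚ] CyclotomicField p ℚ :=
    IsCyclotomicExtension.algEquiv {p} ℚ _ _
  exact Fintype.card_congr (ClassGroup.mulEquiv (RingOfIntegers.mapRingEquiv e.toRingEquiv)).toEquiv

theorem result :
    -- (A) the law for each odd prime `p`
    (∀ (p : ℕ) [NeZero p], p.Prime → p ≠ 2 →
      -- the fields `M` exist exactly for `l ≡ 1 mod p`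
      (∀ l : ℕ, l.Prime → (l ≡ 1 [MOD p] ↔
        ∃ M : IntermediateField ℚ ℂ, NumberField M ∧ IsLayer p l M)) ∧
      -- the possible valuations
      (∀ l : ℕ, l.Prime → ∀ (M : IntermediateField ℚ ℂ) [NumberField M], IsLayer p l M →
        ∃ j ≤ (p - 1) / 2,
          padicValNat p (Nat.card (Fixed p M)) = padicValNat p (cl p) + (p - 3) / 2 + j) ∧
      -- the binomial law
      (∀ j : ℕ, HasDensity (fun l => Val p l (padicValNat p (cl p) + (p - 3) / 2 + j))
        ((((p - 1) / 2).choose j : ℝ) * (1 / p) ^ j * (1 - 1 / p) ^ ((p - 1) / 2 - j) / (p - 1))) ∧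
      -- regularity is seen by a single prime `l`
      (Regular p ↔ ∃ l : ℕ, l.Prime ∧ Val p l ((p - 3) / 2)) ∧
      -- and then by a positive proportion
      (Regular p → HasDensity (fun l => Val p l ((p - 3) / 2))
        ((1 - 1 / p) ^ ((p - 1) / 2) / (p - 1)))) ∧
    -- (B) a reformulation of the question
    ({p : ℕ | Regular p}.Infinite ↔
      {p : ℕ | p.Prime ∧ ∃ l : ℕ, l.Prime ∧ Val p l ((p - 3) / 2)}.Infinite) := by
  classical
  have hA : ∀ (p : ℕ) [NeZero p], p.Prime → p ≠ 2 →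
      (∀ l : ℕ, l.Prime → (l ≡ 1 [MOD p] ↔
        ∃ M : IntermediateField ℚ ℂ, NumberField M ∧ IsLayer p l M)) ∧
      (∀ l : ℕ, l.Prime → ∀ (M : IntermediateField ℚ ℂ) [NumberField M], IsLayer p l M →
        ∃ j ≤ (p - 1) / 2,
          padicValNat p (Nat.card (Fixed p M)) = padicValNat p (cl p) + (p - 3) / 2 + j) ∧
      (∀ j : ℕ, HasDensity (fun l => Val p l (padicValNat p (cl p) + (p - 3) / 2 + j))
        ((((p - 1) / 2).choose j : ℝ) * (1 / p) ^ j * (1 - 1 / p) ^ ((p - 1) / 2 - j) / (p - 1))) ∧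
      (Regular p ↔ ∃ l : ℕ, l.Prime ∧ Val p l ((p - 3) / 2)) ∧
      (Regular p → HasDensity (fun l => Val p l ((p - 3) / 2))
        ((1 - 1 / p) ^ ((p - 1) / 2) / (p - 1))) := by
    intro p _ hp hp2
    have hfp : Fact p.Prime := ⟨hp⟩
    have hcf : NumberField (Pool.Agent.H515.CH.cyc p) :=
      Pool.Agent.H515.CH.nf (Pool.Agent.H515.CH.cyc_fin hp.ne_zero)
    have h2 : ∀ l : ℕ, l.Prime → ∀ (M : IntermediateField ℚ ℂ) [NumberField M], IsLayer p l M →
        ∃ j ≤ (p - 1) / 2,
          padicValNat p (Nat.card (Fixed p M)) = padicValNat p (cl p) + (p - 3) / 2 + j := by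
      intro l hl M _ hM
      have : Fact l.Prime := ⟨hl⟩
      have h := Pool.Agent.H515.RG.law_all_cyc hp2 (q := l) (M := M) hM
      rw [cl_eq] at h
      exact h
    have hlaw : ∀ j : ℕ, HasDensity (fun l => Val p l (padicValNat p (cl p) + (p - 3) / 2 + j))
        ((((p - 1) / 2).choose j : ℝ) * (1 / p) ^ j * (1 - 1 / p) ^ ((p - 1) / 2 - j) / (p - 1)) := by
      intro j
      have h := Pool.Agent.H515.RG.binomial_cyc hp2 j
      have e : ((((p - 1) / 2).choose j * (p - 1) ^ ((p - 1) / 2 - j) : ℕ) : ℝ) /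
          ((p ^ ((p - 1) / 2) * (p - 1) : ℕ) : ℝ) =
          (((p - 1) / 2).choose j : ℝ) * (1 / p) ^ j *
          (1 - 1 / p) ^ ((p - 1) / 2 - j) / (p - 1) := by
        have hp0 : (p : ℝ) ≠ 0 := Nat.cast_ne_zero.2 hp.ne_zero
        have hp1 : ((p - 1 : ℕ) : ℝ) = (p : ℝ) - 1 := by
          rw [Nat.cast_sub hp.one_lt.le, Nat.cast_one]
        have hp10 : (p : ℝ) - 1 ≠ 0 := by
          rw [← hp1]
          exact Nat.cast_ne_zero.2 (by have := hp.one_lt; omega)
        rcases le_or_gt j ((p - 1) / 2) with hj | hj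
        · obtain ⟨i, hi⟩ := Nat.exists_eq_add_of_le hj
          rw [hi, Nat.add_sub_cancel_left]
          push_cast
          rw [hp1]
          have h3 : (1 : ℝ) - 1 / p = (p - 1) / p := by field_simp
          rw [h3, div_pow, div_pow, one_pow, pow_add]
          field_simp
        · rw [Nat.choose_eq_zero_of_lt hj]
          simp
      rw [e] at h
      have e2 : (fun l => Val p l (padicValNat p (cl p) + (p - 3) / 2 + j)) =
          Pool.Agent.H515.RG.PC p j := by
        funext l
        unfold Pool.Agent.H515.RG.PC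
        rw [cl_eq]
        rfl
      rw [e2]
      exact h
    have hreg : Regular p ↔ padicValNat p (cl p) = 0 := by
      have hc0 : cl p ≠ 0 := (Fintype.card_pos).ne'
      constructor
      · rintro ⟨hp', h⟩
        exact padicValNat.eq_zero_of_not_dvd ((Nat.Prime.coprime_iff_not_dvd hp).1 h)
      · intro h
        refine ⟨hp, (Nat.Prime.coprime_iff_not_dvd hp).2 fun h3 => ?_⟩
        have h5 := one_le_padicValNat_of_dvd hc0 h3
        omega
    have hdens : Regular p → HasDensity (fun l => Val p l ((p - 3) / 2))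
        ((1 - 1 / p) ^ ((p - 1) / 2) / (p - 1)) := by
      intro hh
      have h := hlaw 0
      rw [hreg.1 hh, zero_add, add_zero, Nat.choose_zero_right, Nat.cast_one, pow_zero, one_mul,
        one_mul, Nat.sub_zero] at h
      exact h
    refine ⟨fun l hl => ⟨fun hl1 => ?_, ?_⟩, h2, hlaw, ⟨?_, ?_⟩, hdens⟩
    · have : Fact l.Prime := ⟨hl⟩
      obtain ⟨M, hM⟩ := Pool.Agent.H515.KV.exists_layer (K := Pool.Agent.H515.CH.cyc p) (p := p)
        le_rfl hl1
      exact ⟨M, Pool.Agent.H515.KV.layer_fin hl.ne_zero hM, hM⟩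
    · rintro ⟨M, -, hM⟩
      exact Pool.Agent.H515.KV.layer_dvd (K := Cyc p) hl hM
    · intro hh
      have h := hdens hh
      by_contra hcon
      have h3 : ∀ N : ℕ, (Nat.card {l : ℕ // l.Prime ∧ l ≤ N ∧ Val p l ((p - 3) / 2)} : ℝ) /
          (Nat.primeCounting N : ℝ) = 0 := by
        intro N
        have : IsEmpty {l : ℕ // l.Prime ∧ l ≤ N ∧ Val p l ((p - 3) / 2)} := by
          refine ⟨fun x => hcon ?_⟩
          obtain ⟨l, hl, -, hv⟩ := x
          exact ⟨l, hl, hv⟩
        rw [Nat.card_of_isEmpty, Nat.cast_zero, zero_div]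
      have h4 := tendsto_nhds_unique h (tendsto_const_nhds.congr fun N => (h3 N).symm)
      have hp1 : (1 : ℝ) < p := by exact_mod_cast hp.one_lt
      have h5 : (0 : ℝ) < (1 - 1 / p) ^ ((p - 1) / 2) / (p - 1) := by
        apply div_pos
        · apply pow_pos
          rw [sub_pos, div_lt_one (by linarith)]
          exact hp1
        · linarith
      exact h5.ne' h4
    · rintro ⟨l, hl, M, hMf, hM, hv⟩
      obtain ⟨j, -, h4⟩ := h2 l hl M hM
      rw [hreg]
      omega
  refine ⟨hA, ?_⟩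
  have key : ∀ p : ℕ, p ≠ 2 → (Regular p ↔ p.Prime ∧ ∃ l : ℕ, l.Prime ∧ Val p l ((p - 3) / 2)) := by
    intro p hp2
    by_cases hp : p.Prime
    · have : NeZero p := ⟨hp.ne_zero⟩
      rw [(hA p hp hp2).2.2.2.1]
      exact ⟨fun h => ⟨hp, h⟩, fun h => h.2⟩
    · constructor
      · rintro ⟨h, -⟩
        exact absurd h hp
      · rintro ⟨h, -⟩
        exact absurd h hp
  have h1 : ∀ S T : Set ℕ, (∀ p, p ≠ 2 → (p ∈ S ↔ p ∈ T)) → S.Infinite → T.Infinite := by
    intro S T hST hS hT
    apply hS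
    refine (hT.union (Set.finite_singleton 2)).subset ?_
    intro p hpS
    by_cases h : p = 2
    · exact Or.inr h
    · exact Or.inl ((hST p h).1 hpS)
  exact ⟨h1 _ _ fun p hp => key p hp, h1 _ _ fun p hp => (key p hp).symm⟩

end Pool.Agent.Results.MP_a3a416_nt.AmbiguousClassLaw
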