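import Mathlib
import Pool.Agent.H555.Few.Reg
import Pool.Agent.H555.Sieg.Polylog
import Pool.Agent.H555.Sieg.Bern

/-!
# Every large prime becomes regular after boundedly many changes

A prime `p ≥ 5` is regular if `p` divides the numerator of none of `B_2, B_4, …, B_{p-3}`. Nobody knows that
this holds for infinitely many `p`. Here we show that every large prime is at a BOUNDED distance from being
regular, and that a random change suffices. Choose a random subset `A` of `{1, …, (p - 1) / 2}`, every element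
independently with probability `δ`, where `M / p ≤ δ ≤ 1/2` with a constant `M = M (ε)` (for `δ = M / p` the
set `A` has about `M / 2` elements), and replace `B_{2i}` by `B_{2i} + ∑_{a ∈ A} a^{2i-1}`. With probability at least
`1/2 - ε` the prime `p` divides none of the new numerators. Nothing about the base sequence is used: for every `β`,
all signs `s_a`, every `c ≠ 0` and every set `I` of indices the probability that none of the
`β_i + c ∑_{a ∈ A} s_a a^{2i-1}`, `i ∈ I`, vanishes in `ℤ/p` is at least `1 - |I| / p - ε`. So for all large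
primes and all base sequences there is a set `A` with at most `M` elements, `M` an absolute constant, such that none of the
new values vanishes. With `c = -2`, `β_i = ∑_{a ≤ (p-1)/2} a^{2i-1}` (which is
`(2^{1-2i} - 2) B_{2i} / (2i)` modulo `p`): in Kummer's half system `{1, …, (p - 1) / 2}` one can change the signs of at
most `M` elements so that no odd power sum of the new half system vanishes modulo `p`. The probability
in the theorem is the one predicted by the first moment: the mean number of vanishing indices is `|I| / p`.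

Outline. Only the elements of `A` can be used, and there are boundedly many, so that neither exponential moments nor
the sparse polynomials of `PolylogSiegelLaw` are of any help, and the sum over the
`(p-3)/2` indices of the errors in the probability of `β_i + c ∑ s_a a^{2i-1} = 0` must be small. Let `T` be the order of the
group of the `(2i-1)`-st powers. The random variable `s_a a^{2i-1}` (`a ≤ (p - 1) / 2`
random) takes its values in this group, up to the signs, and the two half systems together give the uniform distribution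
(`Half.lean`). A flattening lemma on the scale of `T` (`FlatT.lean`, with the number of the steps depending only
on the exponent, from the Balog-Szemeredi-Gowers theorem and a sum-product estimate for subgroups) and the theorem of Bourgain, Glibichuk and
Konyagin for `T ≥ p^κ` bound the concentration of the sum of `q` such variables by `(1 + κ) / p + C / T^3`
(`Iter.lean`, `Large.lean`). Since at most `T` indices have order `T`, the sum over the `T > T_0` of the
second terms is `O (1 / T_0)`. Conditioning on all but `q` elements of `A` transfers this to the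
random set (`Cond.lean`). The at most `T_0^2` indices with `T ≤ T_0` are excluded by one additive character sum
(`Small.lean`); here the bound `K^4 / p ≤ δ` with a large constant `K` is needed.
-/

open Finset

namespace Pool.Agent.Results.MP_a3a416_nt.BoundedChanges

/-- The probability that the random subset `A` of `{1, …, (p - 1) / 2}`, which contains every element
independently with probability `δ`, has the property `E`. -/
noncomputable def prob (p : ℕ) (δ : ℝ) (E : Finset ℕ → Prop) : ℝ :=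
  open Classical in ∑ A ∈ (Icc 1 ((p - 1) / 2)).powerset,
    if E A then δ ^ #A * (1 - δ) ^ ((p - 1) / 2 - #A) else 0

theorem general (ε : ℝ) (hε : 0 < ε) :
    ∃ M P : ℕ, ∀ p : ℕ, P ≤ p → p.Prime →
      ∀ δ : ℝ, M / p ≤ δ → δ ≤ 1 / 2 →
        ∀ (β : ℕ → ZMod p) (c : ZMod p) (s : ℕ → ZMod p) (I : Finset ℕ), c ≠ 0 →
          (∀ a, s a = 1 ∨ s a = -1) → I ⊆ Icc 1 ((p - 3) / 2) →
          1 - #I / p - ε ≤ prob p δ (fun A => ∀ i ∈ I,
              β i + c * ∑ a ∈ A, s a * (a : ZMod p) ^ (2 * i - 1) ≠ 0) := by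
  classical
  obtain ⟨P, hP⟩ := Pool.Agent.H555.Sieg.law2 ε hε 0
  obtain ⟨M, P', hP'⟩ := Pool.Agent.H555.Few.reg_few ε hε
  refine ⟨M, max (max P P') 5, fun p hp hpp δ hδ0 hδ1 β c s I hc hs hI => ?_⟩
  have : Fact p.Prime := ⟨hpp⟩
  have hp5 : 5 ≤ p := (le_max_right _ _).trans hp
  have hp0 : (0 : ℝ) < p := by exact_mod_cast hpp.pos
  have hδ : 0 ≤ δ := le_trans (by positivity) hδ0
  have hpodd : p % 2 = 1 := by
    rcases hpp.eq_two_or_odd with h | h
    · omega
    · exact h
  have hmem : ∀ i : I, 1 ≤ (i : ℕ) ∧ (i : ℕ) ≤ (p - 3) / 2 := fun i => Finset.mem_Icc.1 (hI i.2)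
  have e1 : ∀ i : I, Odd (2 * (i : ℕ) - 1) := fun i => ⟨(i : ℕ) - 1, by have := hmem i; omega⟩
  have e2 : Function.Injective fun i : I => 2 * (i : ℕ) - 1 := fun i j h => by
    have h2 := hmem i
    have h3 := hmem j
    simp only at h
    exact Subtype.ext (by omega)
  have e3 : ∀ i : I, 2 * (i : ℕ) - 1 < p - 1 := fun i => by have := hmem i; omega
  have e4 : Fintype.card I ≤ p := by
    rw [Fintype.card_coe]
    refine (Finset.card_le_card hI).trans ?_
    rw [Nat.card_Icc]
    omega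
  have h2 : prob p δ (fun A => ∀ i ∈ I,
        β i + c * ∑ a ∈ A, s a * (a : ZMod p) ^ (2 * i - 1) ≠ 0) =
      ∑ A ∈ (Finset.Icc 1 ((p - 1) / 2)).powerset,
        (if Pool.Agent.H555.Sieg.Zc (fun i : I => 2 * (i : ℕ) - 1) c s (fun i => β i) A = 0 then
          Pool.Agent.H555.Sieg.wt δ ((p - 1) / 2) A else 0) := by
    unfold prob
    refine Finset.sum_congr rfl fun A _ => ?_
    have h3 : (Pool.Agent.H555.Sieg.Zc (fun i : I => 2 * (i : ℕ) - 1) c s (fun i => β i) A = 0) ↔
        ∀ i ∈ I, β i + c * ∑ a ∈ A, s a * (a : ZMod p) ^ (2 * i - 1) ≠ 0 := by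
      unfold Pool.Agent.H555.Sieg.Zc Pool.Agent.H555.Sieg.X
      rw [Finset.card_eq_zero, Finset.filter_eq_empty_iff]
      simp only [Finset.mem_univ, true_implies, Subtype.forall, ne_eq]
    unfold Pool.Agent.H555.Sieg.wt
    by_cases hE : ∀ i ∈ I, β i + c * ∑ a ∈ A, s a * (a : ZMod p) ^ (2 * i - 1) ≠ 0
    · rw [if_pos hE, if_pos (h3.2 hE)]
    · rw [if_neg hE, if_neg (fun h => hE (h3.1 h))]
  rw [h2]
  by_cases hδ2 : δ ≤ Real.log p ^ 6 / p
  · have h3 := hP' p (((le_max_right _ _).trans (le_max_left _ _)).trans hp) this δ hδ0 hδ1 hδ2 I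
      (fun i => 2 * (i : ℕ) - 1) e1 e2 e3 e4 c hc s hs (fun i => β i)
    rw [Fintype.card_coe] at h3
    have h4 : (∑ A ∈ (Finset.Icc 1 ((p - 1) / 2)).powerset,
        (if Pool.Agent.H555.Sieg.Zc (fun i : I => 2 * (i : ℕ) - 1) c s (fun i => β i) A = 0 then
          Pool.Agent.H555.Sieg.wt δ ((p - 1) / 2) A else 0)) +
        ∑ A ∈ (Finset.Icc 1 ((p - 1) / 2)).powerset,
        (if Pool.Agent.H555.Sieg.Zc (fun i : I => 2 * (i : ℕ) - 1) c s (fun i => β i) A = 0 then 0 else
          Pool.Agent.H555.Sieg.wt δ ((p - 1) / 2) A) = 1 := by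
      rw [← Finset.sum_add_distrib]
      have h5 := Pool.Agent.H555.Few.wt_gen δ 1 ((p - 1) / 2)
      simp only [one_pow, mul_one] at h5
      rw [sub_add_cancel, one_pow] at h5
      rw [← h5]
      refine Finset.sum_congr rfl fun A _ => ?_
      split_ifs <;> simp
    linarith
  · have h3 := hP p (((le_max_left _ _).trans (le_max_left _ _)).trans hp) this δ (le_of_not_ge hδ2) hδ1 I
      (fun i => 2 * (i : ℕ) - 1) e1 e2 e3 e4 c hc s hs (fun i => β i)
    rw [Fintype.card_coe, pow_zero, mul_one, Nat.factorial_zero, Nat.cast_one, div_one] at h3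
    have h4 := (abs_le.1 h3).1
    have h5 := Real.add_one_le_exp (-(#I / p : ℝ))
    linarith

theorem small (p : ℕ) (hpp : p.Prime) (hp5 : 5 ≤ p) (M : ℕ) (hM : 8 ≤ M) (hMp : 2 * M ≤ p) (E : Finset ℕ → Prop)
    (hE : 3 / 8 ≤ prob p (M / p) E) : ∃ A ⊆ Icc 1 ((p - 1) / 2), #A ≤ M ∧ E A := by
  classical
  have hp0 : (0 : ℝ) < p := by exact_mod_cast hpp.pos
  have hδ : (0 : ℝ) ≤ (M : ℝ) / p := by positivity
  have hδ1 : (M : ℝ) / p ≤ 1 / 2 := by
    rw [div_le_div_iff₀ hp0 (by norm_num)]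
    have : (2 : ℝ) * M ≤ p := by exact_mod_cast hMp
    linarith
  by_contra hcon
  push Not at hcon
  have h1 := Pool.Agent.H555.Few.many ((M : ℝ) / p) hδ hδ1 ((p - 1) / 2) M
  have h2 : prob p (M / p) E ≤ ∑ A ∈ (Finset.Icc 1 ((p - 1) / 2)).powerset,
      (if M < #A then Pool.Agent.H555.Sieg.wt ((M : ℝ) / p) ((p - 1) / 2) A else 0) := by
    unfold prob
    refine Finset.sum_le_sum fun A hA => ?_
    have hw := Pool.Agent.H555.Sieg.wt_nonneg hδ hδ1 ((p - 1) / 2) A
    rw [Finset.mem_powerset] at hA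
    by_cases hEA : E A
    · have h3 : M < #A := by
        by_contra h
        exact hcon A hA (by omega) hEA
      rw [if_pos hEA, if_pos h3]
      unfold Pool.Agent.H555.Sieg.wt
      exact le_rfl
    · rw [if_neg hEA]
      split_ifs
      · exact hw
      · exact le_rfl
  have h3 : Real.exp ((M : ℝ) / p * ((p - 1) / 2 : ℕ)) / 2 ^ M ≤ 1 / 4 := by
    have h4 : Real.exp ((M : ℝ) / p * ((p - 1) / 2 : ℕ)) ≤ Real.exp (1 / 2) ^ M := by
      rw [← Real.exp_nat_mul]
      apply Real.exp_le_exp.2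
      have : (((p - 1) / 2 : ℕ) : ℝ) ≤ p / 2 := by
        rw [le_div_iff₀ (by norm_num)]
        have : (p - 1) / 2 * 2 ≤ p := by omega
        exact_mod_cast this
      calc (M : ℝ) / p * ((p - 1) / 2 : ℕ) ≤ (M : ℝ) / p * (p / 2) := mul_le_mul_of_nonneg_left this hδ
        _ = _ := by field_simp
    have h5 : Real.exp (1 / 2) ≤ 1.65 := by
      have h6 := Real.exp_one_lt_d9
      have h7 : Real.exp (1 / 2) ^ 2 = Real.exp 1 := by rw [← Real.exp_nat_mul]; norm_num
      have h8 := Real.exp_pos (1 / 2)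
      nlinarith
    calc Real.exp ((M : ℝ) / p * ((p - 1) / 2 : ℕ)) / 2 ^ M ≤ (Real.exp (1 / 2)) ^ M / 2 ^ M :=
          div_le_div_of_nonneg_right h4 (by positivity)
      _ = (Real.exp (1 / 2) / 2) ^ M := by rw [div_pow]
      _ ≤ (0.825 : ℝ) ^ M := by
          refine pow_le_pow_left₀ (by positivity) ?_ M
          linarith
      _ ≤ (0.825 : ℝ) ^ 8 := pow_le_pow_of_le_one (by norm_num) (by norm_num) hM
      _ ≤ 1 / 4 := by norm_num
  linarith

/-- **Every large prime becomes regular after boundedly many random changes.** For every `ε > 0` there are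
`M` and `P` such that for every prime `p ≥ P`:

* for every `δ` with `M / p ≤ δ ≤ 1/2` and the random set `A ⊆ {1, …, (p - 1) / 2}` which contains each element
  independently with probability `δ`, the probability that `p` divides the numerator of
  `B_{2i} + ∑_{a ∈ A} a^(2i-1)` for no `i` with `1 ≤ i ≤ (p - 3) / 2` is at least `1/2 - ε`;
* more generally, for every `β : ℕ → ℤ/p`, every `c ≠ 0`, all signs `s a` and every set `I` of indices,
  `β i + c ∑_{a ∈ A} s_a a^(2i-1) ≠ 0` for all `i ∈ I` with probability at least `1 - |I| / p - ε`;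
* there is a set `A ⊆ {1, …, (p - 1) / 2}` with at most `M` elements such that `p` divides none of the
  numerators of `B_{2i} + ∑_{a ∈ A} a^(2i-1)`, `1 ≤ i ≤ (p - 3) / 2`;
* for every `β : ℕ → ℤ/p`, every `c ≠ 0` and all signs `s a` there is a set `A ⊆ {1, …, (p - 1) / 2}` with
  at most `M` elements such that `β i + c ∑_{a ∈ A} s_a a^(2i-1) ≠ 0` for all `i` with
  `1 ≤ i ≤ (p - 3) / 2`. -/
theorem result (ε : ℝ) (hε : 0 < ε) :
    ∃ M P : ℕ, ∀ p : ℕ, P ≤ p → p.Prime →
      (∀ δ : ℝ, M / p ≤ δ → δ ≤ 1 / 2 →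
        1 / 2 - ε ≤ prob p δ (fun A => ∀ i ∈ Icc 1 ((p - 3) / 2),
            ¬ (p : ℤ) ∣ (bernoulli (2 * i) + ∑ a ∈ A, (a : ℚ) ^ (2 * i - 1)).num) ∧
        ∀ (β : ℕ → ZMod p) (c : ZMod p) (s : ℕ → ZMod p) (I : Finset ℕ), c ≠ 0 →
          (∀ a, s a = 1 ∨ s a = -1) → I ⊆ Icc 1 ((p - 3) / 2) →
          1 - #I / p - ε ≤ prob p δ (fun A => ∀ i ∈ I,
              β i + c * ∑ a ∈ A, s a * (a : ZMod p) ^ (2 * i - 1) ≠ 0)) ∧
      (∃ A ⊆ Icc 1 ((p - 1) / 2), #A ≤ M ∧ ∀ i ∈ Icc 1 ((p - 3) / 2),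
          ¬ (p : ℤ) ∣ (bernoulli (2 * i) + ∑ a ∈ A, (a : ℚ) ^ (2 * i - 1)).num) ∧
      ∀ (β : ℕ → ZMod p) (c : ZMod p) (s : ℕ → ZMod p), c ≠ 0 → (∀ a, s a = 1 ∨ s a = -1) →
        ∃ A ⊆ Icc 1 ((p - 1) / 2), #A ≤ M ∧ ∀ i ∈ Icc 1 ((p - 3) / 2),
          β i + c * ∑ a ∈ A, s a * (a : ZMod p) ^ (2 * i - 1) ≠ 0 := by
  classical
  obtain ⟨M, P, hMP⟩ := general (min ε (1 / 8)) (by positivity)
  refine ⟨max M 8, max P (2 * max M 8 + 5), fun p hp hpp => ?_⟩
  have : Fact p.Prime := ⟨hpp⟩
  have hpM : 2 * max M 8 + 5 ≤ p := (le_max_right _ _).trans hp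
  have hpP : P ≤ p := (le_max_left _ _).trans hp
  have hp5 : 5 ≤ p := by omega
  have hp0 : (0 : ℝ) < p := by exact_mod_cast hpp.pos
  have hbase : ∀ δ : ℝ, ((max M 8 : ℕ) : ℝ) / p ≤ δ → (M : ℝ) / p ≤ δ := by
    intro δ h
    refine le_trans (div_le_div_of_nonneg_right ?_ hp0.le) h
    exact_mod_cast le_max_left _ _
  have hcard : (#(Icc 1 ((p - 3) / 2)) : ℝ) / p ≤ 1 / 2 := by
    rw [Nat.card_Icc, div_le_div_iff₀ hp0 (by norm_num)]
    have : ((p - 3) / 2 + 1 - 1) * 2 ≤ 1 * p := by omega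
    exact_mod_cast this
  -- the event for the Bernoulli numbers
  have hbern : (fun A : Finset ℕ => ∀ i ∈ Icc 1 ((p - 3) / 2),
      ¬ (p : ℤ) ∣ (bernoulli (2 * i) + ∑ a ∈ A, (a : ℚ) ^ (2 * i - 1)).num) =
      fun A : Finset ℕ => ∀ i ∈ Icc 1 ((p - 3) / 2),
      ((bernoulli (2 * i) : ℚ) : ZMod p) + 1 * ∑ a ∈ A, (fun _ => 1) a * (a : ZMod p) ^ (2 * i - 1) ≠ 0 := by
    funext A
    refine propext (forall₂_congr fun i hi => not_congr ?_)
    rw [Finset.mem_Icc] at hi
    rw [Pool.Agent.H555.Sieg.num_iff A i (by omega)]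
    simp only [one_mul]
  have hgen : ∀ δ : ℝ, ((max M 8 : ℕ) : ℝ) / p ≤ δ → δ ≤ 1 / 2 →
      ∀ (β : ℕ → ZMod p) (c : ZMod p) (s : ℕ → ZMod p), c ≠ 0 → (∀ a, s a = 1 ∨ s a = -1) →
      1 / 2 - min ε (1 / 8) ≤ prob p δ (fun A => ∀ i ∈ Icc 1 ((p - 3) / 2),
              β i + c * ∑ a ∈ A, s a * (a : ZMod p) ^ (2 * i - 1) ≠ 0) := by
    intro δ h0 h1 β c s hc hs
    have := hMP p hpP hpp δ (hbase δ h0) h1 β c s (Icc 1 ((p - 3) / 2)) hc hs subset_rfl
    linarith
  have hδ1 : ((max M 8 : ℕ) : ℝ) / p ≤ 1 / 2 := by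
    rw [div_le_div_iff₀ hp0 (by norm_num)]
    have : max M 8 * 2 ≤ 1 * p := by omega
    exact_mod_cast this
  have hex : ∀ (β : ℕ → ZMod p) (c : ZMod p) (s : ℕ → ZMod p), c ≠ 0 → (∀ a, s a = 1 ∨ s a = -1) →
        ∃ A ⊆ Icc 1 ((p - 1) / 2), #A ≤ max M 8 ∧ ∀ i ∈ Icc 1 ((p - 3) / 2),
          β i + c * ∑ a ∈ A, s a * (a : ZMod p) ^ (2 * i - 1) ≠ 0 := by
    intro β c s hc hs
    refine small p hpp hp5 (max M 8) (le_max_right _ _) (by omega) _ ?_
    refine le_trans ?_ (hgen _ le_rfl hδ1 β c s hc hs)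
    have := min_le_right ε (1 / 8)
    linarith
  refine ⟨fun δ h0 h1 => ⟨?_, fun β c s I hc hs hI => ?_⟩, ?_, hex⟩
  · rw [hbern]
    refine le_trans ?_ (hgen δ h0 h1 _ 1 (fun _ => 1) one_ne_zero (fun _ => Or.inl rfl))
    have := min_le_left ε (1 / 8)
    linarith
  · refine le_trans ?_ (hMP p hpP hpp δ (hbase δ h0) h1 β c s I hc hs hI)
    have := min_le_left ε (1 / 8)
    linarith
  · obtain ⟨A, hA1, hA2, hA3⟩ := hex (fun i => ((bernoulli (2 * i) : ℚ) : ZMod p)) 1 (fun _ => 1)
      one_ne_zero (fun _ => Or.inl rfl)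
    refine ⟨A, hA1, hA2, ?_⟩
    exact (congrFun hbern A).mpr hA3

end Pool.Agent.Results.MP_a3a416_nt.BoundedChanges
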