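import Mathlib
import Pool.Agent.H555.Sieg.Polylog
import Pool.Agent.H555.Sieg.Bern

/-!
# Siegel's law for sparse random perturbations of the Bernoulli numbers

A prime `p ≥ 5` is regular if `p` divides the numerator of none of `B_2, B_4, …, B_{p-3}`. Siegel's
heuristic says that the number of the indices `i` with `p ∣ B_{2i}` is `r` for the proportion
`e^{-1/2} 2^{-r} / r!` of the primes, as if the residues modulo `p` were independent. Here this law is proved,
for EVERY large prime, for very sparse perturbations of the Bernoulli numbers: choose a random subset `A` of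
`{1, …, (p - 1) / 2}`, every element independently with probability `δ`, where `(log p)^6 / p ≤ δ ≤ 1/2`, so
that `A` may have as few as about `(log p)^6 / 2` elements, and replace `B_{2i}` by
`B_{2i} + ∑_{a ∈ A} a^{2i-1}`. The number of the irregular indices of the new sequence is `r` with probability
within `ε` of `e^{-1/2} 2^{-r} / r!`. Nothing about the base sequence is used: for every `β`, all signs
`s_a`, every `c ≠ 0` and every set `I` of indices the number of the `i ∈ I` with
`β_i + c ∑_{a ∈ A} s_a a^{2i-1} = 0` in `ℤ/p` is nearly Poisson with mean `|I| / p` (so the set of the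
irregular indices, divided by `p`, tends to a Poisson process on `[0, 1/2]`). With `c = -2`,
`β_i = ∑_{a ≤ (p-1)/2} a^{2i-1}` (which is `(2^{1-2i} - 2) B_{2i} / (2i)` modulo `p`) this is Siegel's law for
the sums `∑_{h ∈ H} h^{2i-1}`, where `H` is Kummer's half system `{1, …, (p - 1) / 2}` with about
`(log p)^6` random changes of sign.

Outline. The factorial moments are expressed by additive characters; the error is a sum over the
sparse odd polynomials `F = ∑ t_i x^{2i-1}` over `ℤ/p`, with at most `k` terms, of `exp (- 2 δ Q / p^2)`, where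
`Q` is the sum of the squares of the absolutely least residues of the values of `F` (`Four.lean`,
`Sparse.lean`). So one needs that sparse polynomials are not concentrated: `Q ≥ p^3 / (log p)^{4.4}` whenever
for a term of `F` the subgroup of the `(2i-1)`-st powers has order greater than `D^{6/5}`,
`D = k log_2 p + O(1)` (`NonConc.lean`). The proof: let `g` be a primitive root and `y_n` the absolutely least residue of
`F (z g^n)`. By pigeonhole there is a polynomial `f ≠ 0` of degree less than `D` with the coefficients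
`-1, 0, 1` which vanishes modulo `p` at all `g^{2i-1}`. If `y` is small on a window, then the shift operator
`f (S)` kills the sequence `y` of INTEGERS there. For a prime `q ≥ 2 D` write `f (X^q) = f^q + q h`.
Then `h (S)` maps `y` to an integer sequence which is at most half as large (`f (S^q) / q` is a contraction),
so `h (S)^n y = 0` for `n > log_2 p`, and `f` vanishes modulo `p` also at `g^{q (2i-1)}`. There are `D` such
primes `q ≤ D^{6/5}`, so `f` has too many zeros. The few exponents for which the subgroup has order at most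
`D^{6/5}` are excluded by a crude bound for the probability that a single sum vanishes.
-/

open Finset

namespace Pool.Agent.Results.MP_a3a416_nt.PolylogSiegelLaw

/-- The probability that the random subset `A` of `{1, …, (p - 1) / 2}`, which contains every element
independently with probability `δ`, has the property `E`. -/
noncomputable def prob (p : ℕ) (δ : ℝ) (E : Finset ℕ → Prop) : ℝ :=
  open Classical in ∑ A ∈ (Icc 1 ((p - 1) / 2)).powerset,
    if E A then δ ^ #A * (1 - δ) ^ ((p - 1) / 2 - #A) else 0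

/-- **Siegel's law for sparse random perturbations.** For all `ε > 0` and `r` there is a `P` such that
for every prime `p ≥ P` and every `δ` with `(log p)^6 / p ≤ δ ≤ 1/2`, and for the random set
`A ⊆ {1, …, (p - 1) / 2}` which contains each element independently with probability `δ`:

* the number of the `i`, `1 ≤ i ≤ (p - 3) / 2`, for which `p` divides the numerator of
  `B_{2i} + ∑_{a ∈ A} a^(2i-1)` is `r` with probability within `ε` of `e^{-1/2} (1/2)^r / r!`;
* for every `β : ℕ → ℤ/p`, every `c ≠ 0`, all signs `s a` and every set `I` of indices, the number of the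
  `i ∈ I` with `β i + c ∑_{a ∈ A} s_a a^(2i-1) = 0` is `r` with probability within `ε` of
  `e^{-λ} λ^r / r!`, `λ = |I| / p`. -/
theorem result (r : ℕ) (ε : ℝ) (hε : 0 < ε) :
    ∃ P : ℕ, ∀ p : ℕ, P ≤ p → p.Prime →
      ∀ δ : ℝ, Real.log p ^ 6 / p ≤ δ → δ ≤ 1 / 2 →
        |prob p δ (fun A => #{i ∈ Icc 1 ((p - 3) / 2) |
            (p : ℤ) ∣ (bernoulli (2 * i) + ∑ a ∈ A, (a : ℚ) ^ (2 * i - 1)).num} = r) -
          Real.exp (-(1 / 2)) * (1 / 2) ^ r / r.factorial| ≤ ε ∧
        ∀ (β : ℕ → ZMod p) (c : ZMod p) (s : ℕ → ZMod p) (I : Finset ℕ), c ≠ 0 →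
          (∀ a, s a = 1 ∨ s a = -1) → I ⊆ Icc 1 ((p - 3) / 2) →
          |prob p δ (fun A => #{i ∈ I |
              β i + c * ∑ a ∈ A, s a * (a : ZMod p) ^ (2 * i - 1) = 0} = r) -
            Real.exp (-(#I / p : ℝ)) * (#I / p : ℝ) ^ r / r.factorial| ≤ ε := by
  classical
  obtain ⟨P, hP⟩ := Pool.Agent.H555.Sieg.law2 (ε / 2) (by positivity) r
  -- continuity of the Poisson probabilities
  have hcont : Filter.Tendsto (fun p : ℕ => Real.exp (-((((p - 3) / 2 : ℕ) : ℝ) / p)) *
      ((((p - 3) / 2 : ℕ) : ℝ) / p) ^ r / r.factorial) Filter.atTop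
      (nhds (Real.exp (-(1 / 2)) * (1 / 2) ^ r / r.factorial)) := by
    have h1 : Filter.Tendsto (fun p : ℕ => (((p - 3) / 2 : ℕ) : ℝ) / p) Filter.atTop (nhds (1 / 2)) := by
      have h2 : Filter.Tendsto (fun p : ℕ => (2 : ℝ) / p) Filter.atTop (nhds 0) :=
        tendsto_const_nhds.div_atTop tendsto_natCast_atTop_atTop
      have h3 : Filter.Tendsto (fun p : ℕ => (1 / 2 : ℝ) - 2 / p) Filter.atTop (nhds (1 / 2 - 0)) :=
        tendsto_const_nhds.sub h2
      rw [sub_zero] at h3
      refine tendsto_of_tendsto_of_tendsto_of_le_of_le' h3 tendsto_const_nhds ?_ ?_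
      · filter_upwards [Filter.eventually_ge_atTop 3] with p hp
        have hp0 : (0 : ℝ) < p := by exact_mod_cast (by omega : 0 < p)
        rw [le_div_iff₀ hp0, sub_mul, div_mul_cancel₀ _ hp0.ne']
        have : p ≤ 2 * ((p - 3) / 2) + 4 := by omega
        have h4 : (p : ℝ) ≤ 2 * (((p - 3) / 2 : ℕ) : ℝ) + 4 := by exact_mod_cast this
        linarith
      · filter_upwards [Filter.eventually_ge_atTop 3] with p hp
        have hp0 : (0 : ℝ) < p := by exact_mod_cast (by omega : 0 < p)
        rw [div_le_iff₀ hp0]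
        have : 2 * ((p - 3) / 2) ≤ p := by omega
        have h4 : 2 * (((p - 3) / 2 : ℕ) : ℝ) ≤ (p : ℝ) := by exact_mod_cast this
        linarith
    have h4 : Continuous fun x : ℝ => Real.exp (-x) * x ^ r / r.factorial := by fun_prop
    exact (h4.tendsto (1 / 2)).comp h1
  obtain ⟨P', hP'⟩ := Metric.tendsto_atTop.1 hcont (ε / 2) (by positivity)
  refine ⟨max (max P P') 5, fun p hp hpp δ hδ0 hδ1 => ?_⟩
  have : Fact p.Prime := ⟨hpp⟩
  have hp5 : 5 ≤ p := (le_max_right _ _).trans hp
  have hpodd : p % 2 = 1 := by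
    rcases hpp.eq_two_or_odd with h | h
    · omega
    · exact h
  have hgen : ∀ (β : ℕ → ZMod p) (c : ZMod p) (s : ℕ → ZMod p) (I : Finset ℕ), c ≠ 0 →
      (∀ a, s a = 1 ∨ s a = -1) → I ⊆ Icc 1 ((p - 3) / 2) →
      |prob p δ (fun A => #{i ∈ I |
          β i + c * ∑ a ∈ A, s a * (a : ZMod p) ^ (2 * i - 1) = 0} = r) -
        Real.exp (-(#I / p : ℝ)) * (#I / p : ℝ) ^ r / r.factorial| ≤ ε / 2 := by
    intro β c s I hc hs hI
    have hmem : ∀ i : I, 1 ≤ (i : ℕ) ∧ (i : ℕ) ≤ (p - 3) / 2 := fun i => Finset.mem_Icc.1 (hI i.2)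
    have h1 := hP p (((le_max_left _ _).trans (le_max_left _ _)).trans hp) this δ hδ0 hδ1 I
      (fun i => 2 * (i : ℕ) - 1)
      (fun i => ⟨(i : ℕ) - 1, by have := hmem i; omega⟩)
      (fun i j h => by
        have h2 := hmem i
        have h3 := hmem j
        simp only at h
        exact Subtype.ext (by omega))
      (fun i => by have := hmem i; omega)
      (by
        rw [Fintype.card_coe]
        refine (Finset.card_le_card hI).trans ?_
        rw [Nat.card_Icc]
        omega)
      c hc s hs (fun i => β i)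
    rw [Fintype.card_coe] at h1
    have h2 : prob p δ (fun A => #{i ∈ I |
          β i + c * ∑ a ∈ A, s a * (a : ZMod p) ^ (2 * i - 1) = 0} = r) =
        ∑ A ∈ (Finset.Icc 1 ((p - 1) / 2)).powerset,
          (if Pool.Agent.H555.Sieg.Zc (fun i : I => 2 * (i : ℕ) - 1) c s (fun i => β i) A = r then
            Pool.Agent.H555.Sieg.wt δ ((p - 1) / 2) A else 0) := by
      unfold prob
      refine Finset.sum_congr rfl fun A _ => ?_
      have h3 : Pool.Agent.H555.Sieg.Zc (fun i : I => 2 * (i : ℕ) - 1) c s (fun i => β i) A =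
          #{i ∈ I | β i + c * ∑ a ∈ A, s a * (a : ZMod p) ^ (2 * i - 1) = 0} := by
        unfold Pool.Agent.H555.Sieg.Zc Pool.Agent.H555.Sieg.X
        rw [← Finset.card_map (Function.Embedding.subtype _)]
        congr 1
        ext i
        simp only [Finset.mem_map, Finset.mem_filter, Finset.mem_univ, true_and,
          Function.Embedding.subtype_apply, Subtype.exists, exists_and_left, exists_prop,
          exists_eq_right_right]
        tauto
      rw [h3]
      unfold Pool.Agent.H555.Sieg.wt
      by_cases hE : #{i ∈ I | β i + c * ∑ a ∈ A, s a * (a : ZMod p) ^ (2 * i - 1) = 0} = r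
      · rw [if_pos hE, if_pos hE]
      · rw [if_neg hE, if_neg hE]
    rw [h2]
    exact h1
  refine ⟨?_, fun β c s I hc hs hI => (hgen β c s I hc hs hI).trans (by linarith)⟩
  have h1 := hgen (fun i => ((bernoulli (2 * i) : ℚ) : ZMod p)) 1 (fun _ => 1)
    (Icc 1 ((p - 3) / 2)) one_ne_zero (fun _ => Or.inl rfl) subset_rfl
  have h2 := hP' p (((le_max_right _ _).trans (le_max_left _ _)).trans hp)
  rw [Real.dist_eq] at h2
  rw [Nat.card_Icc, Nat.add_sub_cancel] at h1
  have h3 : prob p δ (fun A => #{i ∈ Icc 1 ((p - 3) / 2) |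
      ((bernoulli (2 * i) : ℚ) : ZMod p) + 1 * ∑ a ∈ A, 1 * (a : ZMod p) ^ (2 * i - 1) = 0} = r) =
      prob p δ (fun A => #{i ∈ Icc 1 ((p - 3) / 2) |
            (p : ℤ) ∣ (bernoulli (2 * i) + ∑ a ∈ A, (a : ℚ) ^ (2 * i - 1)).num} = r) := by
    unfold prob
    refine Finset.sum_congr rfl fun A _ => ?_
    have h4 : ({i ∈ Icc 1 ((p - 3) / 2) |
        ((bernoulli (2 * i) : ℚ) : ZMod p) + 1 * ∑ a ∈ A, 1 * (a : ZMod p) ^ (2 * i - 1) = 0} : Finset ℕ) =
        {i ∈ Icc 1 ((p - 3) / 2) |
            (p : ℤ) ∣ (bernoulli (2 * i) + ∑ a ∈ A, (a : ℚ) ^ (2 * i - 1)).num} := by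
      refine Finset.filter_congr fun i hi => ?_
      rw [Finset.mem_Icc] at hi
      rw [Pool.Agent.H555.Sieg.num_iff A i (by omega)]
      simp only [one_mul]
    by_cases hE : #{i ∈ Icc 1 ((p - 3) / 2) |
            (p : ℤ) ∣ (bernoulli (2 * i) + ∑ a ∈ A, (a : ℚ) ^ (2 * i - 1)).num} = r
    · rw [if_pos hE, if_pos (by simp only [h4]; exact hE)]
    · rw [if_neg hE, if_neg (by simp only [h4]; exact hE)]
  rw [h3] at h1
  have h5 := abs_sub_le (prob p δ (fun A => #{i ∈ Icc 1 ((p - 3) / 2) |
            (p : ℤ) ∣ (bernoulli (2 * i) + ∑ a ∈ A, (a : ℚ) ^ (2 * i - 1)).num} = r))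
    (Real.exp (-((((p - 3) / 2 : ℕ) : ℝ) / p)) * ((((p - 3) / 2 : ℕ) : ℝ) / p) ^ r / r.factorial)
    (Real.exp (-(1 / 2)) * (1 / 2) ^ r / r.factorial)
  linarith

end Pool.Agent.Results.MP_a3a416_nt.PolylogSiegelLaw
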