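import Pool.Agent.H563.RI.Global

/-!
# MP_a3a416_nt: one thin set of indices for all primes

Call `i`, `1 ≤ i ≤ (p - 3) / 2`, a regular index of the prime `p` if `p` does not divide the numerator of
`B_{2i}`; an odd prime is regular if all its indices are. By a starting result every `N`,
`2 ≤ N ≤ (p - 3) / 2`, is a sum of two regular indices of `p`, for every prime `p`. Here the indices are taken
from ONE fixed set `A` with `O(x ^ (3/4) (log x) ^ (1/2))` elements up to `x`, which does not depend on `p`.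

The proof. The starting result BalancedRegularSums gives about `√(N / 6)` representations. The numerators of
`B_2, …, B_{2M}` have `O(M ^ 3)` prime factors (all other primes have the same regular indices up to `M`), so
that for `N ≤ M` there are only `O(M ^ 4)` conditions for the set. At the scale `16 ^ j ≤ N < 16 ^ (j + 1)` one
element is chosen from each block of length about `2 ^ j / (64 √j)`, once for `N - i` and once for `i`, by the
method of conditional expectations.
-/

set_option autoImplicit false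

namespace Pool.Agent.Results.MP_a3a416_nt.UniversalIndices

theorem result : ∃ A : Set ℕ, ∃ C : ℝ,
    (∀ x : ℕ, 2 ≤ x → ((A ∩ Set.Icc 1 x).ncard : ℝ) ≤ C * (x : ℝ) ^ (3 / 4 : ℝ) * √(Real.log x)) ∧
    ∀ p N : ℕ, p.Prime → 2 ≤ N → 2 * N + 3 ≤ p →
      ∃ T : Finset ℕ, T.Nonempty ∧ Real.log N / 32 ≤ (T.card : ℝ) ∧
        ∀ i ∈ T, (0 < i ∧ i < N) ∧ (i ∈ A ∧ N - i ∈ A) ∧
          ¬ ((p : ℤ) ∣ (bernoulli (2 * i)).num) ∧ ¬ ((p : ℤ) ∣ (bernoulli (2 * (N - i))).num) := by
  obtain ⟨A, h1, h2⟩ := Pool.Agent.H563.RI.main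
  refine ⟨A, 2 ^ 43, h1, ?_⟩
  intro p N hp hN hNp
  obtain ⟨T, h3, h4, h5⟩ := h2 p N hp hN hNp
  refine ⟨T, h4, h3, ?_⟩
  intro i hi
  obtain ⟨a1, a2, a3, a4⟩ := h5 i hi
  exact ⟨a1, a2, a3, a4⟩

end Pool.Agent.Results.MP_a3a416_nt.UniversalIndices
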